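import Pool.Agent.Y640.CP.Prob
import Pool.Agent.Y640.CP.Near

/-!
# The quenched free energy of a charged polymer: self-averaging, neutral charges, bounds

The quenched free energy `f(β, p)` of the charged polymer is self-averaging for every dimension, every
inverse temperature `β > 0` and every charge density `p` (the starting result `SelfAveraging`). Here the
function `f` is studied, and the theorem on self-averaging is strengthened:

* the convergence takes place almost surely and in mean, and the values `p = 0`, `p = 1` (weakly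
  self-avoiding walk) are included;
* the free energy of neutral charges is explicit: `f(β, 1/2) = β/2`;
* `-log 2 ≤ f(β, 1) ≤ f(β, p) ≤ 2 β p (1 - p)`; so `f(β, p) < β/2` for `p ≠ 1/2`, and the value `β/2`,
  the largest possible one, is attained exactly by neutral charges: every bias costs a positive free
  energy, at least `β (2 p - 1)^2 / 2` per step;
* `f(β, p)` is continuous in `p` at the neutral point: a small bias costs only a little;
* `f(β, 1 - p) = f(β, p)`, and `f(β, p)` is convex and `f(β, p) - β/2` nonincreasing in `β`.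
-/

open Filter Topology MeasureTheory ProbabilityTheory

namespace Pool.Agent.Results.MP_5acba2_pr.QuenchedFreeEnergy

open Pool.Agent.Y640.CP

universe u

theorem result (d : ℕ) (hd : 1 ≤ d) : ∃ f : ℝ → ℝ → ℝ,
    (∀ β : ℝ, 0 < β → ∀ p : ℝ, 0 ≤ p → p ≤ 1 →
      (∀ (Ω : Type u) [MeasurableSpace Ω] (P : Measure Ω) [IsProbabilityMeasure P]
        (w : ℕ → Ω → ℝ), IsCharges P p w →
        (∀ᵐ x ∂P, Tendsto (fun n : ℕ => Real.log (partitionFn d β (fun i => w i x) n) / (n : ℝ))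
          atTop (𝓝 (f β p))) ∧
        Tendsto (fun n : ℕ =>
          ∫ x, |Real.log (partitionFn d β (fun i => w i x) n) / (n : ℝ) - f β p| ∂P)
          atTop (𝓝 0)) ∧
      -Real.log 2 ≤ f β 1 ∧ f β 1 ≤ f β p ∧ f β p ≤ 2 * β * (p * (1 - p)) ∧
      (f β p = β / 2 ↔ p = 1 / 2) ∧ f β (1 - p) = f β p) ∧
    (∀ β : ℝ, 0 < β → ContinuousAt (fun p => f β p) (1 / 2)) ∧
    ∀ p : ℝ, 0 ≤ p → p ≤ 1 → ConvexOn ℝ (Set.Ioi 0) (fun β => f β p) ∧
      AntitoneOn (fun β => f β p - β / 2) (Set.Ioi 0) := by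
  have : NeZero d := ⟨by omega⟩
  have key : ∀ β p : ℝ, ∃ f : ℝ, 0 < β → 0 ≤ p → p ≤ 1 → (p = 1 / 2 → f = β / 2) ∧
      (∀ c : ℝ, (∀ (Ω : Type) [MeasurableSpace Ω] (P : Measure Ω) [IsProbabilityMeasure P]
        (ξ : ℕ → Ω → Bool), (∀ i, Measurable (ξ i)) → iIndepFun ξ P →
        (∀ i, P {x | ξ i x = true} = ENNReal.ofReal p) →
        ∀ᵐ x ∂P, ∀ᶠ n : ℕ in atTop,
          c ≤ Real.log (Pool.Agent.Helper964.Chg.Zt d β n (fun i => ξ i x)) / ((n : ℝ) + 1)) →
        β / 2 + c ≤ f) ∧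
      ∀ (Ω : Type) [MeasurableSpace Ω] (P : Measure Ω) [IsProbabilityMeasure P]
        (w : ℕ → Ω → ℝ), IsCharges P p w →
        ∀ᵐ x ∂P, Tendsto (fun n : ℕ => Real.log (partitionFn d β (fun i => w i x) n) / (n : ℝ))
          atTop (𝓝 f) := by
    intro β p
    by_cases h : 0 < β ∧ 0 ≤ p ∧ p ≤ 1
    · obtain ⟨f, hf⟩ := conv d h.1 h.2.1 h.2.2
      exact ⟨f, fun _ _ _ => hf⟩
    · exact ⟨0, fun h1 h2 h3 => absurd ⟨h1, h2, h3⟩ h⟩
  choose f hf using key
  -- almost sure convergence on the canonical space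
  have hlow : ∀ β : ℝ, 0 < β → -Real.log 2 ≤ f β 1 := by
    intro β hβ
    obtain ⟨Q, hQ, hch, -⟩ := canonical.{0} (p := 1) zero_le_one le_rfl
    have h1 := (hf β 1 hβ zero_le_one le_rfl).2.2 _ Q _ hch
    obtain ⟨x, hx⟩ := h1.exists
    refine ge_of_tendsto hx ?_
    filter_upwards [eventually_gt_atTop 0] with n hn
    have hn' : (0 : ℝ) < n := by exact_mod_cast hn
    rw [le_div_iff₀ hn']
    have := log_Z_ge_two hd β (fun i => x i) n
    linarith
  have hone : ∀ β : ℝ, 0 < β → Tendsto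
      (fun n : ℕ => Real.log (partitionFn d β (fun _ => 1) n) / (n : ℝ)) atTop (𝓝 (f β 1)) := by
    intro β hβ
    obtain ⟨Q, hQ, hch, -⟩ := canonical.{0} (p := 1) zero_le_one le_rfl
    have h1 := (hf β 1 hβ zero_le_one le_rfl).2.2 _ Q _ hch
    have h2 : ∀ᵐ x ∂Q, ∀ i : ℕ, x i = 1 := by
      rw [ae_all_iff]
      intro i
      have h3 : Q {x | x i = -1} = 0 := by
        rw [hch.2.2.2 i]
        simp
      have h4 : ∀ᵐ x ∂Q, ¬ (x i = -1) := by
        rw [ae_iff]
        simpa using h3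
      filter_upwards [hch.pm zero_le_one le_rfl, h4] with x h5 h6
      exact (h5 i).resolve_right h6
    obtain ⟨x, hx1, hx2⟩ := (h1.and h2).exists
    have h7 : (fun i => x i) = fun _ : ℕ => (1 : ℝ) := funext hx2
    rw [h7] at hx1
    exact hx1
  have hmono : ∀ β : ℝ, 0 < β → ∀ p : ℝ, 0 ≤ p → p ≤ 1 → f β 1 ≤ f β p := by
    intro β hβ p hp0 hp1
    obtain ⟨Q, hQ, hch, -⟩ := canonical.{0} hp0 hp1
    have h1 := (hf β p hβ hp0 hp1).2.2 _ Q _ hch
    obtain ⟨x, hx1, hx2⟩ := (h1.and (hch.pm hp0 hp1)).exists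
    refine le_of_tendsto_of_tendsto' (hone β hβ) hx1 fun n => ?_
    refine div_le_div_of_nonneg_right ?_ (Nat.cast_nonneg n)
    exact Real.log_le_log (Z_pos hd β _ n) (Z_mono_one hd hβ.le hx2 n)
  have hup : ∀ β : ℝ, 0 < β → ∀ p : ℝ, 0 ≤ p → p ≤ 1 → f β p ≤ 2 * β * (p * (1 - p)) := by
    intro β hβ p hp0 hp1
    obtain ⟨Q, hQ, hch, -⟩ := canonical.{0} hp0 hp1
    have h1 := (hf β p hβ hp0 hp1).2.2 _ Q _ hch
    obtain ⟨x, ⟨hx1, hx2⟩, hx3⟩ := ((h1.and (hch.pm hp0 hp1)).and (hch.lln hp0 hp1)).exists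
    have a1 : Tendsto (fun n : ℕ => (∑ i ∈ Finset.range (n + 1), x i) / ((n + 1 : ℕ) : ℝ)) atTop
        (𝓝 (2 * p - 1)) := hx3.comp (tendsto_add_atTop_nat 1)
    have a2 : Tendsto (fun n : ℕ => ((n : ℝ) + 1) / (n : ℝ)) atTop (𝓝 1) := by
      have h3 : Tendsto (fun n : ℕ => 1 + 1 / (n : ℝ)) atTop (𝓝 (1 + 0)) :=
        tendsto_const_nhds.add tendsto_one_div_atTop_nhds_zero_nat
      rw [add_zero] at h3
      refine h3.congr' ?_
      filter_upwards [eventually_gt_atTop 0] with n hn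
      have : (n : ℝ) ≠ 0 := by positivity
      field_simp
    have a3 : Tendsto (fun n : ℕ => β / 2 * ((((n : ℝ) + 1) / (n : ℝ)) *
        (1 - ((∑ i ∈ Finset.range (n + 1), x i) / ((n + 1 : ℕ) : ℝ)) ^ 2))) atTop
        (𝓝 (β / 2 * (1 * (1 - (2 * p - 1) ^ 2)))) :=
      (a2.mul ((a1.pow 2).const_sub 1)).const_mul _
    have a4 : β / 2 * (1 * (1 - (2 * p - 1) ^ 2)) = 2 * β * (p * (1 - p)) := by ring
    rw [a4] at a3
    refine le_of_tendsto_of_tendsto hx1 a3 ?_
    filter_upwards [eventually_gt_atTop 0] with n hn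
    have hn' : (0 : ℝ) < n := by exact_mod_cast hn
    have hn1 : (0 : ℝ) < (n : ℝ) + 1 := by positivity
    rw [div_le_iff₀ hn']
    refine (log_Z_le hd hβ.le hx2 n).trans (le_of_eq ?_)
    push_cast
    field_simp
  have hsym : ∀ β : ℝ, 0 < β → ∀ p : ℝ, 0 ≤ p → p ≤ 1 → f β (1 - p) = f β p := by
    intro β hβ p hp0 hp1
    obtain ⟨Q, hQ, hch, -⟩ := canonical.{0} hp0 hp1
    have h1 := (hf β p hβ hp0 hp1).2.2 _ Q _ hch
    have h2 := (hf β (1 - p) hβ (by linarith) (by linarith)).2.2 _ Q _ hch.neg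
    obtain ⟨x, hx1, hx2⟩ := (h1.and h2).exists
    have h3 : ∀ n : ℕ, partitionFn d β (fun i => -x i) n = partitionFn d β (fun i => x i) n :=
      fun n => Z_neg d β x n
    simp only [h3] at hx2
    exact tendsto_nhds_unique hx2 hx1
  refine ⟨f, ?_, ?_, ?_⟩
  · intro β hβ p hp0 hp1
    refine ⟨?_, hlow β hβ, hmono β hβ p hp0 hp1, hup β hβ p hp0 hp1, ⟨?_, ?_⟩,
      hsym β hβ p hp0 hp1⟩
    · intro Ω _ P _ w hw
      obtain ⟨Q, hQ, hch, htr⟩ := canonical.{u} hp0 hp1
      have h1 := (hf β p hβ hp0 hp1).2.2 _ Q _ hch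
      rw [← htr Ω P w hw] at h1
      have h2 := ae_of_ae_map (measurable_pi_iff.2 hw.1).aemeasurable h1
      exact ⟨h2, hw.l1 hp0 hp1 hd hβ h2⟩
    · intro h
      have h1 := hup β hβ p hp0 hp1
      rw [h] at h1
      have h2 : β * (2 * p - 1) ^ 2 ≤ 0 := by nlinarith
      have h3 : (2 * p - 1) ^ 2 ≤ 0 := by
        by_contra hc
        have := mul_pos hβ (not_le.1 hc)
        linarith
      have h4 : 2 * p - 1 = 0 := pow_eq_zero_iff (two_ne_zero) |>.1 (le_antisymm h3 (sq_nonneg _))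
      linarith
    · exact (hf β p hβ hp0 hp1).1
  · intro β hβ
    rw [Metric.continuousAt_iff]
    intro ε hε
    obtain ⟨η, hη, hnear⟩ := Near.near_eps.{0} d hβ (half_pos hε)
    refine ⟨min (1 / 2) (η / 2), lt_min (by norm_num) (half_pos hη), fun {p} hp => ?_⟩
    rw [Real.dist_eq] at hp ⊢
    have a1 := hp.trans_le (min_le_left _ _)
    have a2 := hp.trans_le (min_le_right _ _)
    rw [abs_lt] at a1
    have hp0 : 0 ≤ p := by linarith [a1.1]
    have hp1 : p ≤ 1 := by linarith [a1.2]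
    have a3 : |2 * p - 1| ≤ η := by
      have : 2 * p - 1 = 2 * (p - 1 / 2) := by ring
      rw [this, abs_mul, abs_two]
      linarith
    have a4 := (hf β p hβ hp0 hp1).2.1 (-(ε / 2)) (hnear p hp0 a3)
    have a5 := hup β hβ p hp0 hp1
    have a6 : 2 * β * (p * (1 - p)) ≤ β / 2 := by nlinarith [mul_nonneg hβ.le (sq_nonneg (2 * p - 1))]
    have a7 := (hf β (1 / 2) hβ (by norm_num) (by norm_num)).1 rfl
    rw [a7, abs_lt]
    constructor <;> linarith
  · intro p hp0 hp1
    obtain ⟨Q, hQ, hch, -⟩ := canonical.{0} hp0 hp1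
    constructor
    · refine ⟨convex_Ioi 0, ?_⟩
      intro β hβ β' hβ' a b ha hb hab
      have hβ0 : 0 < β := hβ
      have hβ0' : 0 < β' := hβ'
      simp only [smul_eq_mul]
      rcases ha.eq_or_lt with rfl | ha
      · have : b = 1 := by linarith
        subst this
        simp
      rcases hb.eq_or_lt with rfl | hb
      · have : a = 1 := by linarith
        subst this
        simp
      have h1 := (hf β p hβ0 hp0 hp1).2.2 _ Q _ hch
      have h2 := (hf β' p hβ0' hp0 hp1).2.2 _ Q _ hch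
      have h3 := (hf (a * β + b * β') p (by positivity) hp0 hp1).2.2 _ Q _ hch
      obtain ⟨x, ⟨hx1, hx2⟩, hx3⟩ := ((h1.and h2).and h3).exists
      refine le_of_tendsto_of_tendsto' hx3 ((hx1.const_mul a).add (hx2.const_mul b)) fun n => ?_
      have h4 := div_le_div_of_nonneg_right (log_Z_convex hd (fun i => x i) n (β := β) (β' := β')
        ha hb hab) (Nat.cast_nonneg n)
      rw [add_div, mul_div_assoc, mul_div_assoc] at h4
      exact h4
    · intro β hβ β' hβ' hle
      have hβ0 : 0 < β := hβ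
      have hβ0' : 0 < β' := hβ'
      have h1 := (hf β p hβ0 hp0 hp1).2.2 _ Q _ hch
      have h2 := (hf β' p hβ0' hp0 hp1).2.2 _ Q _ hch
      obtain ⟨x, ⟨hx1, hx2⟩, hx3⟩ := ((h1.and h2).and (hch.pm hp0 hp1)).exists
      have a2 : Tendsto (fun n : ℕ => ((n : ℝ) + 1) / (n : ℝ)) atTop (𝓝 1) := by
        have h3 : Tendsto (fun n : ℕ => 1 + 1 / (n : ℝ)) atTop (𝓝 (1 + 0)) :=
          tendsto_const_nhds.add tendsto_one_div_atTop_nhds_zero_nat
        rw [add_zero] at h3
        refine h3.congr' ?_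
        filter_upwards [eventually_gt_atTop 0] with n hn
        have : (n : ℝ) ≠ 0 := by positivity
        field_simp
      have h5 : f β' p ≤ f β p + (β' - β) / 2 * 1 := by
        refine le_of_tendsto_of_tendsto hx2 (hx1.add (a2.const_mul ((β' - β) / 2))) ?_
        filter_upwards [eventually_gt_atTop 0] with n hn
        have hn' : (0 : ℝ) < n := by exact_mod_cast hn
        have h6 := div_le_div_of_nonneg_right (log_Z_beta hd hle hx3 n) hn'.le
        refine h6.trans (le_of_eq ?_)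
        field_simp
      show f β' p - β' / 2 ≤ f β p - β / 2
      linarith

end Pool.Agent.Results.MP_5acba2_pr.QuenchedFreeEnergy
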